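import Mathlib

set_option autoImplicit false
set_option linter.unusedSectionVars false

open Filter Topology Set MeasureTheory Metric Complex
open scoped ENNReal NNReal Real ContDiff

namespace Pool.Agent.H99.Ucp

variable {F : Type*} [NormedAddCommGroup F] [NormedSpace ℝ F] [NormedSpace ℂ F]
  [IsScalarTower ℝ ℂ F] [CompleteSpace F]

noncomputable def db (g : ℂ → F) (z : ℂ) : F := fderiv ℝ g z 1 + I • fderiv ℝ g z I

lemma cs (r : ℝ) (x : F) : r • x = (r : ℂ) • x := (algebraMap_smul ℂ r x).symm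

lemma rot (L : ℂ →L[ℝ] F) (w : ℂ) :
    L w + I • L (I * w) = (starRingEnd ℂ w) • (L 1 + I • L I) := by
  have e1 : L w = w.re • L 1 + w.im • L I := by
    rw [← map_smul, ← map_smul, ← map_add]; congr 1; apply Complex.ext <;> simp
  have e2 : L (I * w) = (-w.im) • L 1 + w.re • L I := by
    rw [← map_smul, ← map_smul, ← map_add]; congr 1; apply Complex.ext <;> simp
  have e3 : starRingEnd ℂ w = (w.re : ℂ) - w.im * I := by apply Complex.ext <;> simp
  rw [e1, e2, e3, cs, cs, cs, cs]
  match_scalars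
  · ring
  · linear_combination (w.im : ℂ) * I_sq

lemma db_cont {g : ℂ → F} (hg : ContDiff ℝ 1 g) : Continuous (db g) := by
  have := hg.continuous_fderiv (by simp)
  unfold db; fun_prop

lemma pomp0 {g : ℂ → F} (hg : ContDiff ℝ 1 g) {R : ℝ} (R0 : 0 < R) (hR : ∀ z, R ≤ ‖z‖ → g z = 0) :
    ‖g 0‖ₑ ≤ ∫⁻ z, ‖db g z‖ₑ * ‖z‖ₑ⁻¹ := by
  have cD := hg.continuous_fderiv (by simp)
  have dg := hg.differentiable (by simp)
  let e : ℝ → ℂ := fun θ => exp (θ * I)
  have ce : Continuous e := by fun_prop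
  have ne : ∀ θ, ‖e θ‖ = 1 := fun θ => norm_exp_ofReal_mul_I θ
  let A : ℝ → ℝ → F := fun r θ => fderiv ℝ g (r * e θ) (e θ)
  let B : ℝ → ℝ → F := fun r θ => fderiv ℝ g (r * e θ) (I * e θ)
  have cA : Continuous (Function.uncurry A) := by unfold A Function.uncurry; fun_prop
  have cB : Continuous (Function.uncurry B) := by unfold B Function.uncurry; fun_prop
  have h1 : ∀ θ, ∫ r in Ioc 0 R, A r θ = -g 0 := fun θ => by
    rw [← intervalIntegral.integral_of_le R0.le,
      intervalIntegral.integral_eq_sub_of_hasDerivAt (f := fun r : ℝ => g (r * e θ)) (f' := fun r => A r θ)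
        (fun r _ => ?_) ((cA.comp (Continuous.prodMk_left θ)).intervalIntegrable _ _)]
    · rw [hR _ (by simp [ne, abs_of_pos R0])]; simp
    · have : HasDerivAt (fun r : ℝ => (r : ℂ) * e θ) (e θ) r := by
        simpa using (Complex.ofRealCLM.hasDerivAt (x := r)).mul_const (e θ)
      exact (dg _).hasFDerivAt.comp_hasDerivAt r this
  have h2 : ∀ r, 0 < r → ∫ θ in Ioc (-π) π, B r θ = 0 := fun r r0 => by
    have : ∫ θ in (-π)..π, r • B r θ = 0 := by
      rw [intervalIntegral.integral_eq_sub_of_hasDerivAt (f := fun θ : ℝ => g (r * e θ))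
        (f' := fun θ => r • B r θ)
        (fun θ _ => ?_) (((cB.comp (Continuous.prodMk_right r)).const_smul r).intervalIntegrable _ _)]
      · simp [e, exp_neg]
      · have : HasDerivAt (fun θ : ℝ => (r : ℂ) * e θ) (r • (I * e θ)) θ := by
          have := (((Complex.ofRealCLM.hasDerivAt (x := θ)).mul_const I).cexp).const_mul (r : ℂ)
          refine this.congr_deriv ?_
          simp only [e, ofRealCLM_apply, ofReal_one, real_smul]; ring
        have := (dg _).hasFDerivAt.comp_hasDerivAt θ this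
        rw [map_smul] at this
        exact this
    rw [intervalIntegral.integral_smul, intervalIntegral.integral_of_le (by linarith [Real.pi_pos])]
      at this
    exact (smul_eq_zero.1 this).resolve_left r0.ne'
  have iA : Integrable (Function.uncurry A)
      ((volume.restrict (Ioc 0 R)).prod (volume.restrict (Ioc (-π) π))) := by
    rw [Measure.prod_restrict]
    exact (cA.continuousOn.integrableOn_compact (isCompact_Icc.prod isCompact_Icc)).mono_set
      (prod_mono Ioc_subset_Icc_self Ioc_subset_Icc_self)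
  have sw := integral_integral_swap iA
  simp only [h1] at sw
  have k : ∫ r in Ioc 0 R, ∫ θ in Ioc (-π) π, A r θ =
      ∫ r in Ioc 0 R, ∫ θ in Ioc (-π) π, (A r θ + I • B r θ) := by
    refine setIntegral_congr_fun measurableSet_Ioc fun r hr => ?_
    have i1 : IntegrableOn (A r) (Ioc (-π) π) :=
      (cA.comp (Continuous.prodMk_right r)).integrableOn_Ioc
    have i2 : IntegrableOn (B r) (Ioc (-π) π) :=
      (cB.comp (Continuous.prodMk_right r)).integrableOn_Ioc
    have := integral_add i1 (i2.smul I)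
    simp only [Pi.smul_apply] at this
    rw [this, integral_smul, h2 r hr.1]; simp
  have n0 : ‖g 0‖ₑ ≤ ‖∫ θ in Ioc (-π) π, -g 0‖ₑ := by
    rw [← ofReal_norm, ← ofReal_norm]
    refine ENNReal.ofReal_le_ofReal ?_
    rw [setIntegral_const, norm_smul, norm_neg, Real.volume_real_Ioc_of_le (by linarith [Real.pi_pos]),
      Real.norm_of_nonneg (by linarith [Real.pi_pos])]
    nlinarith [Real.pi_gt_three, norm_nonneg (g 0)]
  rw [← sw, k] at n0
  rw [← Complex.lintegral_comp_polarCoord_symm]
  have m : Measurable fun p : ℝ × ℝ => ‖db g (p.1 * e p.2)‖ₑ :=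
    ((db_cont hg).comp (by fun_prop)).enorm.measurable
  calc _ ≤ ∫⁻ r in Ioc (0 : ℝ) R, ∫⁻ θ in Ioc (-π) π, ‖db g (r * e θ)‖ₑ := by
        refine n0.trans ((enorm_integral_le_lintegral_enorm _).trans (lintegral_mono fun r =>
          (enorm_integral_le_lintegral_enorm _).trans (le_of_eq (lintegral_congr fun θ => ?_))))
        simp only [A, B]
        rw [rot, enorm_smul, ← ofReal_norm (starRingEnd ℂ _), RCLike.norm_conj, ne]; simp [db]
    _ ≤ ∫⁻ r in Ioi (0 : ℝ), ∫⁻ θ in Ioo (-π) π, ‖db g (r * e θ)‖ₑ := by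
        rw [← Measure.restrict_congr_set (Ioo_ae_eq_Ioc (a := -π) (b := π))]
        exact lintegral_mono_set Ioc_subset_Ioi_self
    _ = ∫⁻ p in Ioi (0 : ℝ) ×ˢ Ioo (-π) π, ‖db g (p.1 * e p.2)‖ₑ := by
        rw [Measure.volume_eq_prod, ← Measure.prod_restrict, lintegral_prod _ m.aemeasurable]
    _ = _ := by
        refine setLIntegral_congr_fun (measurableSet_Ioi.prod measurableSet_Ioo) fun p hp => ?_
        have p0 : 0 < p.1 := hp.1
        have : Complex.polarCoord.symm p = p.1 * e p.2 := by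
          simp [Complex.polarCoord_symm_apply, e, exp_mul_I]
        simp only [smul_eq_mul]
        rw [this, ← ofReal_norm ((p.1 : ℂ) * e p.2), norm_mul, ne, mul_one, Complex.norm_real,
          Real.norm_of_nonneg p0.le, mul_left_comm, ENNReal.mul_inv_cancel (by simpa using p0)
            ENNReal.ofReal_ne_top, mul_one]

lemma pomp {g : ℂ → F} (hg : ContDiff ℝ 1 g) {R : ℝ} (hR : ∀ z, R ≤ ‖z‖ → g z = 0) (w : ℂ) :
    ‖g w‖ₑ ≤ ∫⁻ z, ‖db g z‖ₑ * ‖w - z‖ₑ⁻¹ := by
  have := pomp0 (g := fun z => g (w + z)) (hg.comp (by fun_prop)) (R := |R| + ‖w‖ + 1)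
    (by positivity) fun z hz => hR _ (by
      have := norm_sub_le (w + z) w
      rw [add_sub_cancel_left] at this
      linarith [le_abs_self R])
  rw [add_zero] at this
  refine this.trans (le_of_eq ?_)
  rw [← lintegral_add_left_eq_self (fun z => ‖db g z‖ₑ * ‖w - z‖ₑ⁻¹) w]
  refine lintegral_congr fun z => ?_
  simp only [db, fderiv_comp_add_left, sub_add_cancel_left, enorm_neg]

section scal
variable {E : Type*} [NormedAddCommGroup E] [NormedSpace ℝ E] [NormedSpace ℂ E]
  [IsScalarTower ℝ ℂ E] [FiniteDimensional ℂ E] [FiniteDimensional ℝ E] [MeasurableSpace E]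
  [BorelSpace E] (μ : Measure E) [μ.IsAddHaarMeasure]

lemma scal {f : E → ℝ≥0∞} (hf : Measurable f) {c : ℂ} (hc : c ≠ 0) :
    ∫⁻ y, f (c • y) ∂μ = (‖c‖ₑ ^ (2 * Module.finrank ℂ E))⁻¹ * ∫⁻ y, f y ∂μ := by
  let L : E →ₗ[ℝ] E := (c • (LinearMap.id : E →ₗ[ℂ] E)).restrictScalars ℝ
  have d : LinearMap.det L = ‖c‖ ^ (2 * Module.finrank ℂ E) := by
    simp only [L]
    rw [LinearMap.det_restrictScalars, LinearMap.det_smul, LinearMap.det_id, mul_one, map_pow,
      Algebra.norm_complex_apply, Complex.normSq_eq_norm_sq, pow_mul]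
  have p : 0 < ‖c‖ ^ (2 * Module.finrank ℂ E) := pow_pos (norm_pos_iff.2 hc) _
  have := Measure.map_linearMap_addHaar_eq_smul_addHaar μ (f := L) (d ▸ p.ne')
  have m : Measurable L := L.continuous_of_finiteDimensional.measurable
  have e := lintegral_map (μ := μ) hf m
  rw [this, lintegral_smul_measure, d, abs_of_pos (inv_pos.2 p), ENNReal.ofReal_inv_of_pos p,
    ENNReal.ofReal_pow (norm_nonneg _), ofReal_norm] at e
  exact e.symm

end scal

end Pool.Agent.H99.Ucp
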