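import Pool.Agent.KS6_19.SU.L.H99.Ucp1

set_option autoImplicit false
set_option linter.unusedSectionVars false

open Filter Topology Set MeasureTheory Metric Complex
open scoped ENNReal NNReal Real ContDiff

namespace Pool.Agent.H99.Ucp

lemma near {s : ℝ} (hs : s < 2) (c : ℂ) (R : ℝ) :
    ∫⁻ z in ball c R, ‖z - c‖ₑ ^ (-s) < ⊤ := by
  have m : Measurable fun z : ℂ => ‖z‖ ^ (-s) := by fun_prop
  have := integrableOn_ball_of_norm_le_rpow (μ := (volume : Measure ℂ)) (by simp)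
    (f := fun z : ℂ => ‖z‖ ^ (-s)) (C := 1) (α := s) (r := R) (by simpa using hs)
    (.of_forall fun z => by rw [one_mul, Real.norm_of_nonneg (by positivity)]) m.aestronglyMeasurable
  have h := this.2
  rw [hasFiniteIntegral_iff_ofReal (.of_forall fun z => by positivity)] at h
  rw [← lintegral_indicator measurableSet_ball] at h ⊢
  rw [← lintegral_add_left_eq_self _ c]
  refine lt_of_le_of_lt (lintegral_mono_ae ?_) h
  filter_upwards [(volume : Measure ℂ).ae_ne 0] with z hz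
  by_cases k : z ∈ ball (0 : ℂ) R
  · rw [indicator_of_mem k, indicator_of_mem (by simpa using k), add_sub_cancel_left,
      ← ENNReal.ofReal_rpow_of_pos (norm_pos_iff.2 hz), ofReal_norm]
  · rw [indicator_of_notMem (by simpa using k)]; exact zero_le

lemma er {a b s : ℝ} {C : ℝ} (hs : 0 ≤ s) (b0 : 0 < b) (C0 : 0 < C) (h : b ≤ C * a) :
    ENNReal.ofReal a ^ (-s) ≤ ENNReal.ofReal (C ^ s) * ENNReal.ofReal b ^ (-s) := by
  have a0 : 0 < a := by nlinarith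
  rw [ENNReal.ofReal_rpow_of_pos a0, ENNReal.ofReal_rpow_of_pos b0, ← ENNReal.ofReal_mul (by positivity)]
  refine ENNReal.ofReal_le_ofReal ?_
  have := Real.rpow_le_rpow b0.le h hs
  rw [Real.mul_rpow C0.le a0.le] at this
  rw [Real.rpow_neg a0.le, Real.rpow_neg b0.le, ← div_eq_mul_inv, le_div_iff₀ (by positivity),
    inv_mul_le_iff₀ (by positivity)]
  linarith

lemma ker1 {r : ℝ} (r1 : 1 < r) (r2 : r < 2) :
    ∫⁻ z : ℂ, ‖z‖ₑ ^ (-1 : ℝ) * ‖z - 1‖ₑ ^ (-r) < ⊤ := by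
  have j := (integrable_one_add_norm (E := ℂ) (μ := volume) (r := 1 + r) (by simp; linarith)).2
  rw [hasFiniteIntegral_iff_ofReal (.of_forall fun z => by positivity)] at j
  have cov : (univ : Set ℂ) ⊆ ball 0 (1 / 2) ∪ (ball 1 (1 / 2) ∪ {z | 1 / 2 ≤ ‖z‖ ∧ 1 / 2 ≤ ‖z - 1‖}) := by
    intro z _
    simp only [mem_union, mem_ball, dist_eq_norm, sub_zero, mem_ofPred_eq]
    by_cases a : ‖z‖ < 1 / 2
    · exact .inl a
    by_cases b : ‖z - 1‖ < 1 / 2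
    · exact .inr (.inl b)
    exact .inr (.inr ⟨not_lt.1 a, not_lt.1 b⟩)
  rw [← setLIntegral_univ]
  refine (lintegral_mono_set cov).trans_lt ((lintegral_union_le _ _ _).trans_lt (ENNReal.add_lt_top.2
    ⟨?_, (lintegral_union_le _ _ _).trans_lt (ENNReal.add_lt_top.2 ⟨?_, ?_⟩)⟩))
  · calc _ ≤ ∫⁻ z in ball (0 : ℂ) (1 / 2), ‖z - 0‖ₑ ^ (-1 : ℝ) * .ofReal (2 ^ r) := by
          refine setLIntegral_mono' measurableSet_ball fun z hz => ?_
          rw [sub_zero]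
          gcongr
          have := norm_sub_norm_le 1 z
          rw [mem_ball_zero_iff] at hz
          rw [norm_sub_rev, norm_one] at this
          simpa using er (a := ‖z - 1‖) (b := 1) (s := r) (C := 2) (by linarith) one_pos two_pos
            (by linarith)
      _ < ⊤ := by
          rw [lintegral_mul_const' _ _ ENNReal.ofReal_ne_top]
          exact ENNReal.mul_lt_top (near (by norm_num) 0 _) ENNReal.ofReal_lt_top
  · calc _ ≤ ∫⁻ z in ball (1 : ℂ) (1 / 2), .ofReal (2 ^ (1 : ℝ)) * ‖z - 1‖ₑ ^ (-r) := by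
          refine setLIntegral_mono' measurableSet_ball fun z hz => ?_
          gcongr
          have := norm_sub_norm_le 1 z
          rw [mem_ball, dist_eq_norm] at hz
          rw [norm_sub_rev, norm_one] at this
          simpa using er (a := ‖z‖) (b := 1) (s := 1) (C := 2) (by linarith) one_pos two_pos
            (by linarith)
      _ < ⊤ := by
          rw [lintegral_const_mul' _ _ ENNReal.ofReal_ne_top]
          exact ENNReal.mul_lt_top ENNReal.ofReal_lt_top (near r2 1 _)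
  · calc _ ≤ ∫⁻ z : ℂ in {z | 1 / 2 ≤ ‖z‖ ∧ 1 / 2 ≤ ‖z - 1‖},
          (.ofReal (3 ^ (1 : ℝ)) * .ofReal (5 ^ r)) * .ofReal ((1 + ‖z‖) ^ (-(1 + r))) := by
          refine setLIntegral_mono' (by measurability) fun z hz => ?_
          have := norm_sub_norm_le z 1
          rw [norm_one] at this
          have p : 0 < 1 + ‖z‖ := by positivity
          have a := er (a := ‖z‖) (b := 1 + ‖z‖) (s := 1) (C := 3) (by linarith) p (by norm_num)
            (by linarith [hz.1])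
          have b := er (a := ‖z - 1‖) (b := 1 + ‖z‖) (s := r) (C := 5) (by linarith) p (by norm_num)
            (by linarith [hz.2])
          rw [ofReal_norm] at a b
          refine (mul_le_mul' a b).trans (le_of_eq ?_)
          rw [neg_add, ← ENNReal.ofReal_rpow_of_pos p, ENNReal.rpow_add _ _ (by simpa using p)
            ENNReal.ofReal_ne_top]
          ring
      _ ≤ _ := setLIntegral_le_lintegral _ _
      _ < ⊤ := by
          rw [lintegral_const_mul' _ _ (ENNReal.mul_ne_top ENNReal.ofReal_ne_top ENNReal.ofReal_ne_top)]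
          exact ENNReal.mul_lt_top (ENNReal.mul_lt_top ENNReal.ofReal_lt_top ENNReal.ofReal_lt_top) j

lemma ker (r : ℝ) {w : ℂ} (hw : w ≠ 0) : ∫⁻ z : ℂ, ‖z‖ₑ ^ (-1 : ℝ) * ‖z - w‖ₑ ^ (-r) =
    ‖w‖ₑ ^ (1 - r) * ∫⁻ z : ℂ, ‖z‖ₑ ^ (-1 : ℝ) * ‖z - 1‖ₑ ^ (-r) := by
  have w0 : ‖w‖ₑ ≠ 0 := by simpa using hw
  have := scal (volume : Measure ℂ) (f := fun z : ℂ => ‖z‖ₑ ^ (-1 : ℝ) * ‖z - w‖ₑ ^ (-r))
    (by fun_prop) hw
  have e : ∀ z : ℂ, ‖w • z‖ₑ ^ (-1 : ℝ) * ‖w • z - w‖ₑ ^ (-r) =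
      ‖w‖ₑ ^ (-1 - r) * (‖z‖ₑ ^ (-1 : ℝ) * ‖z - 1‖ₑ ^ (-r)) := fun z => by
    rw [smul_eq_mul, ← mul_sub_one, enorm_mul, enorm_mul,
      ENNReal.mul_rpow_of_ne_top enorm_ne_top enorm_ne_top,
      ENNReal.mul_rpow_of_ne_top enorm_ne_top enorm_ne_top, sub_eq_add_neg (-1 : ℝ),
      ENNReal.rpow_add _ _ w0 enorm_ne_top]
    ring
  simp only [e] at this
  rw [lintegral_const_mul _ (by fun_prop), Module.finrank_self, mul_one] at this
  have t : 1 - r = 2 + (-1 - r) := by ring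
  rw [t, ENNReal.rpow_add _ _ w0 enorm_ne_top, mul_assoc, this, ← mul_assoc, ENNReal.rpow_two,
    ENNReal.mul_inv_cancel (by simpa using w0) (by simp), one_mul]

lemma schur {q : ℝ} (hq : 2 < q) : ∃ ε : ℝ≥0∞, ε ≠ 0 ∧ ∀ P : ℂ → ℝ≥0∞, Measurable P →
    ∫⁻ z, P z ^ q * ‖z‖ₑ ^ (q - 2) ≤ ε → ∀ w : ℂ, w ≠ 0 →
      ∫⁻ z, P z * ‖z‖ₑ ^ (-q⁻¹) * ‖z - w‖ₑ⁻¹ ≤ 2⁻¹ * ‖w‖ₑ ^ (-q⁻¹) := by
  have q0 : 0 < q := by linarith
  have hc := Real.HolderConjugate.conjExponent (show 1 < q by linarith)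
  set r := q.conjExponent
  have r1 : 1 < r := hc.symm.lt
  have r0 : 0 < r := by linarith
  have ee : q⁻¹ + r⁻¹ = 1 := hc.inv_add_inv_eq_one
  have r2 : r < 2 := by
    have : q⁻¹ < 2⁻¹ := inv_strictAnti₀ two_pos hq
    have : 2⁻¹ < r⁻¹ := by linarith
    exact (inv_lt_inv₀ two_pos r0).1 this
  set κ := ∫⁻ z : ℂ, ‖z‖ₑ ^ (-1 : ℝ) * ‖z - 1‖ₑ ^ (-r)
  have κt : κ ^ (1 / r) + 1 ≠ ⊤ :=
    ENNReal.add_ne_top.2 ⟨(ENNReal.rpow_lt_top_of_nonneg (by positivity) (ker1 r1 r2).ne).ne, by simp⟩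
  refine ⟨(2⁻¹ * (κ ^ (1 / r) + 1)⁻¹) ^ q, ?_, fun P mP hP w hw => ?_⟩
  · exact (ENNReal.rpow_pos (ENNReal.mul_pos (by simp) (ENNReal.inv_ne_zero.2 κt))
      (ENNReal.mul_ne_top (by simp) (ENNReal.inv_ne_top.2 (by simp)))).ne'
  have H := ENNReal.lintegral_mul_le_Lp_mul_Lq (volume : Measure ℂ) hc
    (f := fun z => P z * ‖z‖ₑ ^ (1 - 2 / q)) (g := fun z => ‖z‖ₑ ^ (-r⁻¹) * ‖z - w‖ₑ⁻¹)
    (by fun_prop) (by fun_prop)
  have e1 : ∫⁻ z, (P z * ‖z‖ₑ ^ (1 - 2 / q)) ^ q = ∫⁻ z, P z ^ q * ‖z‖ₑ ^ (q - 2) :=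
    lintegral_congr fun z => by
      rw [ENNReal.mul_rpow_of_nonneg _ _ q0.le, ← ENNReal.rpow_mul]; congr 2; field_simp
  have e2 : ∫⁻ z : ℂ, (‖z‖ₑ ^ (-r⁻¹) * ‖z - w‖ₑ⁻¹) ^ r = ‖w‖ₑ ^ (1 - r) * κ := by
    rw [← ker r hw]
    refine lintegral_congr fun z => ?_
    rw [ENNReal.mul_rpow_of_nonneg _ _ r0.le, ← ENNReal.rpow_mul, ENNReal.inv_rpow,
      ← ENNReal.rpow_neg]; congr 2; field_simp
  rw [e1, e2] at H
  calc _ = _ := lintegral_congr_ae ?_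
    _ ≤ _ := H
    _ ≤ (2⁻¹ * (κ ^ (1 / r) + 1)⁻¹) * (‖w‖ₑ ^ (-q⁻¹) * (κ ^ (1 / r) + 1)) := by
        gcongr
        · refine (ENNReal.rpow_le_rpow hP (by positivity)).trans (le_of_eq ?_)
          rw [← ENNReal.rpow_mul, mul_one_div_cancel q0.ne', ENNReal.rpow_one]
        · rw [ENNReal.mul_rpow_of_nonneg _ _ (by positivity), ← ENNReal.rpow_mul,
            show (1 - r) * (1 / r) = -q⁻¹ by rw [show q⁻¹ = 1 - r⁻¹ by linarith]; field_simp; ring]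
          gcongr; exact le_self_add
    _ = _ := by
        rw [mul_mul_mul_comm, ENNReal.inv_mul_cancel (by simp) κt, mul_one]
  filter_upwards [(volume : Measure ℂ).ae_ne 0] with z hz
  simp only [Pi.mul_apply]
  rw [show -q⁻¹ = (1 - 2 / q) + -r⁻¹ by rw [div_eq_mul_inv]; linarith,
    ENNReal.rpow_add _ _ (by simpa using hz) enorm_ne_top]
  ring

lemma cut {a b : ℝ} (a0 : 0 < a) (ab : a < b) : ∃ (χ : ℂ → ℝ) (C : ℝ), 0 ≤ C ∧ ContDiff ℝ 1 χ ∧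
    (∀ z, 0 ≤ χ z ∧ χ z ≤ 1) ∧ (∀ z, ‖z‖ ≤ a → χ z = 1) ∧ (∀ z, b ≤ ‖z‖ → χ z = 0) ∧
    (∀ z, ‖fderiv ℝ χ z‖ ≤ C) ∧ ∀ z, ‖z‖ < a ∨ b < ‖z‖ → fderiv ℝ χ z = 0 := by
  let φ : ContDiffBump (0 : ℂ) := ⟨a, b, a0, ab⟩
  have s : ContDiff ℝ 1 φ := φ.contDiff
  obtain ⟨C, hC⟩ := (s.continuous_fderiv (by simp)).bounded_above_of_compact_support
    (φ.hasCompactSupport.fderiv ℝ)
  have o : ∀ z, ‖z‖ ≤ a → φ z = 1 := fun z h => φ.one_of_mem_closedBall (by simpa using h)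
  have n : ∀ z, b ≤ ‖z‖ → φ z = 0 := fun z h => φ.zero_of_le_dist (by simpa using h)
  refine ⟨φ, C, (norm_nonneg _).trans (hC 0), s, fun z => ⟨φ.nonneg, φ.le_one⟩, o, n, hC, ?_⟩
  rintro z (h | h)
  · have : (φ : ℂ → ℝ) =ᶠ[𝓝 z] fun _ => 1 :=
      ((isOpen_lt continuous_norm continuous_const).eventually_mem h).mono fun y hy => o y (le_of_lt hy)
    rw [this.fderiv_eq]; simp
  · have : (φ : ℂ → ℝ) =ᶠ[𝓝 z] fun _ => 0 :=
      ((isOpen_lt continuous_const continuous_norm).eventually_mem h).mono fun y hy => n y (le_of_lt hy)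
    rw [this.fderiv_eq]; simp

end Pool.Agent.H99.Ucp
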