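import Pool.Agent.KS6_19.SU.L.H99.Ucp2

set_option autoImplicit false
set_option linter.unusedSectionVars false

open Filter Topology Set MeasureTheory Metric Complex
open scoped ENNReal NNReal Real ContDiff

namespace Pool.Agent.H99.Ucp

variable {F : Type*} [NormedAddCommGroup F] [NormedSpace ℝ F] [NormedSpace ℂ F]
  [IsScalarTower ℝ ℂ F] [CompleteSpace F]

def ann (a b : ℝ) : Set ℂ := {z | a ≤ ‖z‖ ∧ ‖z‖ ≤ b}

lemma ann_m (a b : ℝ) : MeasurableSet (ann a b) := by unfold ann; measurability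

def App (R : ℝ) (U G : ℂ → F) : Prop := ∀ δ > 0, ∀ ε : ℝ≥0∞, ε ≠ 0 → ∃ g : ℂ → F,
  ContDiff ℝ 1 g ∧ ∫⁻ z in ann δ R, (‖g z - U z‖ₑ + ‖db g z - G z‖ₑ) ≤ ε

lemma db_smul {a : ℂ → ℂ} {g : ℂ → F} (ha : ContDiff ℝ 1 a) (hg : ContDiff ℝ 1 g) (z : ℂ) :
    db (fun z => a z • g z) z = a z • db g z + db a z • g z := by
  have := ((ha.differentiable (by simp) z).hasFDerivAt.smul (hg.differentiable (by simp) z).hasFDerivAt).fderiv
  simp only [db]
  rw [show (fun z => a z • g z) = a • g from rfl, this]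
  simp only [add_apply, smul_apply,
    ContinuousLinearMap.smulRight_apply, smul_eq_mul]
  match_scalars <;> ring

lemma nearU (R : ℝ) : ∃ c : ℝ≥0∞, c ≠ ⊤ ∧ ∀ δ, ∀ z ∈ ann δ R, ∫⁻ w in ann δ R, ‖w - z‖ₑ⁻¹ ≤ c := by
  refine ⟨_, (near (s := 1) (by norm_num) 0 (2 * R + 1)).ne, fun δ z hz => ?_⟩
  rw [← lintegral_indicator measurableSet_ball, ← lintegral_indicator (ann_m _ _),
    ← lintegral_add_left_eq_self _ z]
  refine lintegral_mono fun w => ?_
  by_cases k : z + w ∈ ann δ R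
  · have := norm_sub_le (z + w) z
    rw [add_sub_cancel_left] at this
    rw [indicator_of_mem k, indicator_of_mem (by rw [mem_ball_zero_iff]; linarith [k.2, hz.2])]
    simp [ENNReal.rpow_neg_one]
  · rw [indicator_of_notMem k]; exact zero_le

lemma rep {R δ : ℝ} {U G : ℂ → F} (mU : StronglyMeasurable U) (mG : StronglyMeasurable G)
    (h : App R U G) (δ0 : 0 < δ) {a : ℂ → ℂ} (ha : ContDiff ℝ 1 a)
    (hs : ∀ z ∉ ann δ R, a z = 0 ∧ db a z = 0) :
    ∀ᵐ w, ‖a w‖ₑ * ‖U w‖ₑ ≤ ∫⁻ z, (‖a z‖ₑ * ‖G z‖ₑ + ‖db a z‖ₑ * ‖U z‖ₑ) * ‖w - z‖ₑ⁻¹ := by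
  have ca := ha.continuous
  have cd := db_cont ha
  have nU := mU.enorm
  have nG := mG.enorm
  obtain ⟨C, hC⟩ := (isCompact_closedBall (0 : ℂ) R).exists_bound_of_continuousOn
    (ca.prodMk cd).continuousOn
  have b1 : ∀ z ∈ ann δ R, ‖a z‖ₑ ≤ .ofReal C := fun z hz => by
    rw [← ofReal_norm]
    exact ENNReal.ofReal_le_ofReal ((norm_fst_le (a z, db a z)).trans (hC z (by simpa using hz.2)))
  have b2 : ∀ z ∈ ann δ R, ‖db a z‖ₑ ≤ .ofReal C := fun z hz => by
    rw [← ofReal_norm]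
    exact ENNReal.ofReal_le_ofReal ((norm_snd_le (a z, db a z)).trans (hC z (by simpa using hz.2)))
  obtain ⟨c, ct, hc⟩ := nearU R
  set T := fun w => ∫⁻ z, (‖a z‖ₑ * ‖G z‖ₑ + ‖db a z‖ₑ * ‖U z‖ₑ) * ‖w - z‖ₑ⁻¹
  have mT : Measurable T := Measurable.lintegral_prod_right' (f := fun p : ℂ × ℂ =>
    (‖a p.2‖ₑ * ‖G p.2‖ₑ + ‖db a p.2‖ₑ * ‖U p.2‖ₑ) * ‖p.1 - p.2‖ₑ⁻¹)
    ((((ca.enorm.measurable.comp measurable_snd).mul (nG.comp measurable_snd)).add
      ((cd.enorm.measurable.comp measurable_snd).mul (nU.comp measurable_snd))).mul (by fun_prop))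
  have key : ∀ ε : ℝ≥0∞, ε ≠ 0 →
      ∫⁻ w in ann δ R, (‖a w‖ₑ * ‖U w‖ₑ - T w) ≤ (.ofReal C * (1 + c)) * ε := fun ε ε0 => by
    obtain ⟨g, hg, e⟩ := h δ δ0 ε ε0
    set D := fun z => ‖g z - U z‖ₑ + ‖db g z - G z‖ₑ
    have mD : Measurable D := (hg.continuous.stronglyMeasurable.sub mU).enorm.add
      ((db_cont hg).stronglyMeasurable.sub mG).enorm
    calc _ ≤ ∫⁻ w in ann δ R, (.ofReal C * D w + ∫⁻ z in ann δ R, .ofReal C * D z * ‖w - z‖ₑ⁻¹) := by
          refine setLIntegral_mono' (ann_m _ _) fun w hw => tsub_le_iff_right.2 ?_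
          have p := pomp (g := fun z => a z • g z) (ha.smul hg) (R := R + 1)
            (fun z hz => by rw [(hs z fun k => by linarith [k.2]).1, zero_smul]) w
          have t : ‖U w‖ₑ ≤ ‖g w - U w‖ₑ + ‖g w‖ₑ := by
            have := enorm_sub_le (a := g w) (b := g w - U w)
            rwa [sub_sub_cancel, add_comm] at this
          calc _ ≤ ‖a w‖ₑ * (‖g w - U w‖ₑ + ‖g w‖ₑ) := by gcongr
            _ ≤ .ofReal C * D w + ‖a w • g w‖ₑ := by
                rw [mul_add, enorm_smul]; gcongr; exacts [b1 w hw, le_self_add]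
            _ ≤ _ := by
                rw [add_assoc]
                gcongr
                refine p.trans ?_
                rw [← lintegral_indicator (ann_m _ _), ← lintegral_add_right _ (by fun_prop)]
                refine lintegral_mono fun z => ?_
                simp only [db_smul ha hg]
                by_cases k : z ∈ ann δ R
                · rw [indicator_of_mem k, ← add_mul]
                  gcongr
                  have t1 : ‖g z‖ₑ ≤ ‖g z - U z‖ₑ + ‖U z‖ₑ := by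
                    simpa using enorm_add_le (g z - U z) (U z)
                  have t2 : ‖db g z‖ₑ ≤ ‖db g z - G z‖ₑ + ‖G z‖ₑ := by
                    simpa using enorm_add_le (db g z - G z) (G z)
                  calc _ ≤ ‖a z‖ₑ * (‖db g z - G z‖ₑ + ‖G z‖ₑ) + ‖db a z‖ₑ * (‖g z - U z‖ₑ + ‖U z‖ₑ) := by
                        refine (enorm_add_le _ _).trans ?_
                        rw [enorm_smul, enorm_smul]; gcongr
                    _ = (‖db a z‖ₑ * ‖g z - U z‖ₑ + ‖a z‖ₑ * ‖db g z - G z‖ₑ) +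
                        (‖a z‖ₑ * ‖G z‖ₑ + ‖db a z‖ₑ * ‖U z‖ₑ) := by ring
                    _ ≤ _ := by
                        simp only [D]; rw [mul_add (ENNReal.ofReal C)]; gcongr
                        exacts [b2 z k, b1 z k]
                · simp [(hs z k).1, (hs z k).2]
      _ = .ofReal C * (∫⁻ w in ann δ R, D w) +
          ∫⁻ z in ann δ R, .ofReal C * D z * ∫⁻ w in ann δ R, ‖w - z‖ₑ⁻¹ := by
          rw [lintegral_add_left (by fun_prop), lintegral_const_mul _ mD,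
            lintegral_lintegral_swap (by fun_prop)]
          congr 1
          exact lintegral_congr fun z => lintegral_const_mul _ (by fun_prop)
      _ ≤ .ofReal C * ε + ∫⁻ z in ann δ R, .ofReal C * c * D z := by
          gcongr ?_ + ?_
          · gcongr
          · refine setLIntegral_mono' (ann_m _ _) fun z hz => ?_
            rw [mul_right_comm]; gcongr; exact hc δ z hz
      _ ≤ _ := by
          rw [lintegral_const_mul _ mD, mul_add, add_mul, mul_one]; gcongr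
  have z0 : ∫⁻ w in ann δ R, (‖a w‖ₑ * ‖U w‖ₑ - T w) = 0 := by
    have kt : ENNReal.ofReal C * (1 + c) ≠ ⊤ := ENNReal.mul_ne_top ENNReal.ofReal_ne_top (by simpa)
    refine le_zero_iff.1 (ENNReal.le_of_forall_pos_le_add fun ε ε0 _ => ?_)
    obtain ⟨e, e0, he⟩ := ENNReal.exists_nnreal_pos_mul_lt kt (b := ε) (by simpa using ε0.ne')
    rw [zero_add]
    exact (key e (by simpa using e0.ne')).trans (by rw [mul_comm]; exact he.le)
  rw [lintegral_eq_zero_iff (by fun_prop), Filter.EventuallyEq, ae_restrict_iff' (ann_m _ _)] at z0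
  filter_upwards [z0] with w hw
  by_cases k : w ∈ ann δ R
  · exact tsub_eq_zero_iff_le.1 (hw k)
  · simp [(hs w k).1]

lemma wt {η : ℂ → ℝ} (hη : ContDiff ℝ 1 η) {δ : ℝ} (δ0 : 0 < δ) (h0 : ∀ z, ‖z‖ < δ → η z = 0)
    (k : ℕ) : ∃ a : ℂ → ℂ, ContDiff ℝ 1 a ∧ (∀ z, ‖a z‖ₑ = ‖η z‖ₑ * ‖z‖ₑ ^ (-k : ℝ)) ∧
      ∀ z, ‖db a z‖ₑ ≤ 2 * ‖fderiv ℝ η z‖ₑ * ‖z‖ₑ ^ (-k : ℝ) := by
  have ev : (fun z : ℂ => (η z : ℂ) * z⁻¹ ^ k) =ᶠ[𝓝 0] fun _ => 0 :=
    ((isOpen_lt continuous_norm continuous_const).eventually_mem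
      (show (0 : ℂ) ∈ {z : ℂ | ‖z‖ < δ} by simpa using δ0)).mono fun y hy => by simp [h0 y hy]
  have n : ∀ z : ℂ, z ≠ 0 → ‖z⁻¹ ^ k‖ₑ = ‖z‖ₑ ^ (-k : ℝ) := fun z hz => by
    rw [enorm_pow, enorm_inv hz, ENNReal.rpow_neg, ENNReal.rpow_natCast, ENNReal.inv_pow]
  refine ⟨fun z => η z * z⁻¹ ^ k, contDiff_iff_contDiffAt.2 fun z => ?_, fun z => ?_, fun z => ?_⟩
  · by_cases hz : z = 0
    · subst hz; exact contDiffAt_const.congr_of_eventuallyEq ev
    · exact (ofRealCLM.contDiff.comp hη).contDiffAt.mul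
        (((contDiffAt_id (𝕜 := ℝ)).inv hz).pow k)
  · by_cases hz : z = 0
    · subst hz; simp [h0 0 (by simpa using δ0)]
    · rw [enorm_mul, n z hz]; congr 1; simp [enorm]
  · by_cases hz : z = 0
    · subst hz; simp only [db, ev.fderiv_eq]; simp
    obtain ⟨c, hc⟩ : ∃ c, HasDerivAt (fun z : ℂ => z⁻¹ ^ k) c z := ⟨_, (hasDerivAt_inv hz).fun_pow k⟩
    have d := (ofRealCLM.hasFDerivAt.comp z (hη.differentiable (by simp) z).hasFDerivAt).mul
      (hc.hasFDerivAt.restrictScalars ℝ)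
    have e : db (fun z => η z * z⁻¹ ^ k) z = (fderiv ℝ η z 1 + I * fderiv ℝ η z I) * z⁻¹ ^ k := by
      simp only [db]
      rw [show (fun z : ℂ => (η z : ℂ) * z⁻¹ ^ k) = (ofRealCLM ∘ η) * fun z : ℂ => z⁻¹ ^ k from rfl,
        d.fderiv]
      simp
      linear_combination (η z : ℂ) * c * I_sq
    rw [e, enorm_mul, n z hz]
    gcongr
    rw [← ofReal_norm, ← ofReal_norm, ← ENNReal.ofReal_ofNat, ← ENNReal.ofReal_mul zero_le_two]
    refine ENNReal.ofReal_le_ofReal ((norm_add_le _ _).trans ?_)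
    have a1 := (fderiv ℝ η z).le_opNorm 1
    have a2 := (fderiv ℝ η z).le_opNorm I
    simp only [norm_one, norm_I, mul_one, norm_mul, one_mul, norm_real] at a1 a2 ⊢
    linarith

end Pool.Agent.H99.Ucp
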