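import Pool.Agent.KS6_19.SU.L.H99.Ucp4

set_option autoImplicit false
set_option linter.unusedSectionVars false

open Filter Topology Set MeasureTheory Metric Complex
open scoped ENNReal NNReal Real ContDiff

namespace Pool.Agent.H99.Ucp

section
variable {F : Type*} [NormedAddCommGroup F] [NormedSpace ℝ F] [NormedSpace ℂ F]
  [IsScalarTower ℝ ℂ F] [CompleteSpace F]

lemma line {q : ℝ} (hq : 2 < q) {R : ℝ} (R0 : 0 < R)
    {U G : ℂ → F} {P : ℂ → ℝ≥0∞} (mU : StronglyMeasurable U) (mG : StronglyMeasurable G)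
    (mP : Measurable P) (h : App R U G) (hi : ∀ δ > 0, ∫⁻ z in ann δ R, (‖U z‖ₑ + ‖G z‖ₑ) < ⊤)
    (hv : Van U) (P1 : ∀ z, 1 ≤ P z) (hG : ∀ z, ‖G z‖ₑ ≤ P z * ‖U z‖ₑ)
    (hP : ∫⁻ z in ann 0 R, P z ^ q * ‖z‖ₑ ^ (q - 2) < ⊤) : ∀ᵐ z, ‖z‖ < R → U z = 0 := by
  obtain ⟨ε, ε0, hε⟩ := schur hq
  let s : Set ℝ := {r | ∀ᵐ z, ‖z‖ < r → U z = 0}
  have cl : IsClosed s := IsSeqClosed.isClosed fun x r hx hr => by
    filter_upwards [ae_all_iff.2 hx] with z hz k
    obtain ⟨j, hj⟩ := (hr.eventually (lt_mem_nhds k)).exists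
    exact hz j hj
  have s0 : (0 : ℝ) ∈ s := by
    show ∀ᵐ z : ℂ, ‖z‖ < 0 → U z = 0
    exact .of_forall fun z hz => absurd hz (norm_nonneg z).not_gt
  refine (show R ∈ s from (cl.inter isClosed_Icc).Icc_subset_of_forall_exists_gt (a := 0) (b := R)
    s0 ?_ ⟨R0.le, le_rfl⟩)
  rintro r ⟨hr, r0, rR⟩ y (hy : r < y)
  let ν := (volume : Measure ℂ).withDensity fun z => P z ^ q * ‖z‖ₑ ^ (q - 2)
  let t : ℕ → Set ℂ := fun m => ann r (min R (r + 1 / (m + 1)))
  have T := tendsto_measure_iInter_atTop (μ := ν) (s := t) (fun m => (ann_m _ _).nullMeasurableSet)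
    (fun i j ij z hz => ⟨hz.1, hz.2.trans (min_le_min_left _ (by gcongr))⟩)
    ⟨0, by
      rw [withDensity_apply _ (ann_m _ _)]
      exact ((lintegral_mono_set (show t 0 ⊆ ann 0 R from fun z hz =>
        ⟨norm_nonneg _, hz.2.trans (min_le_left _ _)⟩)).trans_lt hP).ne⟩
  have z0 : ν (⋂ m, t m) = 0 := by
    refine withDensity_absolutelyContinuous _ _ (measure_mono_null (t := sphere 0 r) (fun z hz => ?_)
      (Measure.addHaar_sphere _ _ _))
    rw [mem_iInter] at hz
    rw [mem_sphere_zero_iff_norm]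
    refine le_antisymm (le_of_forall_pos_le_add fun e e0 => ?_) (hz 0).1
    obtain ⟨m, hm⟩ := exists_nat_one_div_lt e0
    linarith [(hz m).2.trans (min_le_right _ _)]
  rw [z0] at T
  obtain ⟨m, hm⟩ := (T.eventually (gt_mem_nhds (pos_iff_ne_zero.2 ε0))).exists
  set b := min R (r + 1 / (m + 1))
  have rb : r < b := lt_min rR (by rw [lt_add_iff_pos_right]; positivity)
  obtain ⟨a, ra, ab⟩ := exists_between (lt_min rb hy)
  obtain ⟨c, rc, ca⟩ := exists_between ra
  rw [lt_min_iff] at ab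
  refine ⟨c, ?_, rc, by linarith⟩
  refine (step (by linarith) (by linarith) ca ab.1 (min_le_left _ _) mU mG mP h hi hv P1 hG
    (hε _ (mP.indicator (ann_m r b)) ?_) hr).mono fun z hz k => hz k.le
  refine le_trans (le_of_eq ?_) hm.le
  rw [Function.comp_apply, withDensity_apply _ (ann_m _ _), ← lintegral_indicator (ann_m _ _)]
  refine lintegral_congr fun z => ?_
  by_cases k : z ∈ ann r b
  · rw [indicator_of_mem k, indicator_of_mem k]
  · rw [indicator_of_notMem k, indicator_of_notMem k, ENNReal.zero_rpow_of_pos (by linarith), zero_mul]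

end

lemma fat {X : Type*} [MeasurableSpace X] {ν : Measure X} {J : ℕ → X → ℝ≥0∞}
    (m : ∀ j, Measurable (J j)) (h : Tendsto (fun j => ∫⁻ x, J j x ∂ν) atTop (𝓝 0)) :
    ∀ᵐ x ∂ν, ∀ ε ≠ 0, ∃ᶠ j in atTop, J j x < ε := by
  have := lintegral_liminf_le (μ := ν) (u := atTop) m
  rw [h.liminf_eq, le_zero_iff, lintegral_eq_zero_iff (Measurable.liminf m)] at this
  filter_upwards [this] with x hx ε ε0
  exact frequently_lt_of_liminf_lt (h := by rw [hx]; exact pos_iff_ne_zero.2 ε0)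

variable {E : Type*} [NormedAddCommGroup E] [NormedSpace ℝ E] [NormedSpace ℂ E]
  [IsScalarTower ℝ ℂ E] [FiniteDimensional ℂ E] [FiniteDimensional ℝ E] [MeasurableSpace E]
  [BorelSpace E] (μ : Measure E) [μ.IsAddHaarMeasure]

def sh (E : Type*) [NormedAddCommGroup E] : Set E := {x | 1 ≤ ‖x‖ ∧ ‖x‖ ≤ 2}

lemma sh_m : MeasurableSet (sh E) := by unfold sh; measurability

lemma orb {f : E → ℝ≥0∞} {h : ℂ → ℝ≥0∞} (hf : Measurable f) (hh : Measurable h) :
    ∫⁻ x in sh E, ∫⁻ z, h z * f (z • x) ∂volume ∂μ = ∫⁻ y, f y *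
      (∫⁻ z in ann (‖y‖ / 2) ‖y‖, h z * (‖z‖ₑ ^ (2 * Module.finrank ℂ E))⁻¹) ∂μ := by
  let W : Set (ℂ × E) := {p | ‖p.2‖ / 2 ≤ ‖p.1‖ ∧ ‖p.1‖ ≤ ‖p.2‖}
  have mW : MeasurableSet W := by unfold W; measurability
  let k : ℂ × E → ℝ≥0∞ := W.indicator fun p =>
    f p.2 * (h p.1 * (‖p.1‖ₑ ^ (2 * Module.finrank ℂ E))⁻¹)
  have mk : Measurable k := Measurable.indicator (by fun_prop) mW
  rw [lintegral_lintegral_swap (by fun_prop)]
  calc _ = ∫⁻ z, ∫⁻ y, k (z, y) ∂μ := by
        refine lintegral_congr_ae (((volume : Measure ℂ).ae_ne 0).mono fun z hz => ?_)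
        have z0 := norm_pos_iff.2 hz
        have mm : Measurable fun y => W.indicator (fun p => f p.2) (z, y) :=
          ((hf.comp measurable_snd).indicator mW).comp measurable_prodMk_left
        have := scal μ mm hz
        have e : ∀ y, k (z, y) = (h z * (‖z‖ₑ ^ (2 * Module.finrank ℂ E))⁻¹) *
            W.indicator (fun p => f p.2) (z, y) := fun y => by
          by_cases j : (z, y) ∈ W <;> simp [k, j, mul_comm]
        simp only [e]
        rw [lintegral_const_mul _ (by fun_prop), lintegral_const_mul _ mm, mul_assoc, ← this,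
          ← lintegral_indicator sh_m]
        congr 1
        refine lintegral_congr fun x => ?_
        have : (z, z • x) ∈ W ↔ x ∈ sh E := by
          simp only [W, sh, mem_ofPred_eq, norm_smul]
          constructor <;> rintro ⟨a, b⟩ <;> constructor <;> nlinarith
        by_cases j : x ∈ sh E <;> simp [j, this]
    _ = ∫⁻ y, ∫⁻ z, k (z, y) ∂volume ∂μ := lintegral_lintegral_swap mk.aemeasurable
    _ = _ := lintegral_congr fun y => by
        rw [← lintegral_const_mul _ (by fun_prop), ← lintegral_indicator (ann_m _ _)]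
        rfl

lemma orbA {f : E → ℝ≥0∞} (hf : Measurable f) {δ : ℝ} (R : ℝ) :
    ∫⁻ x in sh E, ∫⁻ z in ann δ R, f (z • x) ∂volume ∂μ ≤
      ((ENNReal.ofReal δ ^ (2 * Module.finrank ℂ E))⁻¹ * volume (closedBall (0 : ℂ) R)) *
        ∫⁻ y, f y ∂μ := by
  have := orb μ hf (h := (ann δ R).indicator 1) (measurable_one.indicator (ann_m _ _))
  calc _ = _ := lintegral_congr fun x => ?_
    _ = _ := this
    _ ≤ _ := ?_
  · rw [← lintegral_indicator (ann_m _ _)]
    exact lintegral_congr fun z => by by_cases j : z ∈ ann δ R <;> simp [j]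
  rw [← lintegral_const_mul _ hf]
  refine lintegral_mono fun y => ?_
  rw [mul_comm]
  gcongr
  refine (setLIntegral_le_lintegral _ _).trans ?_
  rw [← setLIntegral_const, ← lintegral_indicator measurableSet_closedBall]
  refine lintegral_mono fun z => ?_
  by_cases j : z ∈ ann δ R
  · rw [indicator_of_mem j, indicator_of_mem (by simpa using j.2), Pi.one_apply, one_mul,
      ← ofReal_norm]
    gcongr; exact j.1
  · simp [j]

lemma orbB (hn : 1 ≤ Module.finrank ℂ E) {f : E → ℝ≥0∞} (hf : Measurable f) :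
    ∫⁻ x in sh E, ∫⁻ z : ℂ, ‖z‖ₑ ^ ((2 * Module.finrank ℂ E : ℝ) - 2) * f (z • x) ∂volume ∂μ ≤
      (4 * NNReal.pi) * ∫⁻ y, f y ∂μ := by
  have : Nontrivial E := Module.nontrivial_of_finrank_pos (R := ℂ) hn
  rw [orb μ hf (by fun_prop), ← lintegral_const_mul _ hf]
  refine lintegral_mono_ae ((μ.ae_ne 0).mono fun y hy => ?_)
  have y0 := norm_pos_iff.2 hy
  rw [mul_comm]
  gcongr
  calc _ ≤ ∫⁻ z in ann (‖y‖ / 2) ‖y‖, ENNReal.ofReal (‖y‖ / 2) ^ (-2 : ℝ) := by
        refine setLIntegral_mono' (ann_m _ _) fun z hz => ?_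
        have z0 : ‖z‖ₑ ≠ 0 := by
          have : 0 < ‖z‖ := by linarith [hz.1]
          simpa using this
        rw [← ENNReal.rpow_natCast, ← ENNReal.rpow_neg, ← ENNReal.rpow_add _ _ z0 enorm_ne_top]
        push_cast
        rw [show 2 * (Module.finrank ℂ E : ℝ) - 2 + -(2 * Module.finrank ℂ E) = -2 by ring]
        exact anti zero_le_two (by rw [← ofReal_norm]; exact ENNReal.ofReal_le_ofReal hz.1)
    _ ≤ ENNReal.ofReal (‖y‖ / 2) ^ (-2 : ℝ) * volume (closedBall (0 : ℂ) ‖y‖) := by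
        rw [setLIntegral_const]; gcongr
        exact fun z hz => by simpa using hz.2
    _ = _ := by
        rw [Complex.volume_closedBall, ← mul_assoc, ENNReal.ofReal_rpow_of_pos (by positivity),
          ← ENNReal.ofReal_pow y0.le, ← ENNReal.ofReal_mul (by positivity), Real.rpow_neg (by positivity),
          Real.rpow_two, show ((‖y‖ / 2) ^ 2)⁻¹ * ‖y‖ ^ 2 = 4 by field_simp; norm_num]
        simp

lemma orbD (hn : 1 ≤ Module.finrank ℂ E) {f : E → ℝ≥0∞} (hf : Measurable f) {R : ℝ}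
    (h : ∀ᵐ x ∂μ.restrict (sh E), ∀ᵐ z : ℂ, ‖z‖ < R → f (z • x) = 0) :
    ∀ᵐ y ∂μ, ‖y‖ < R → f y = 0 := by
  have : Nontrivial E := Module.nontrivial_of_finrank_pos (R := ℂ) hn
  have mh : Measurable ((ball (0 : ℂ) R).indicator (1 : ℂ → ℝ≥0∞)) :=
    measurable_one.indicator measurableSet_ball
  have e := orb μ (f := fun y => (ball 0 R).indicator f y *
    ENNReal.ofReal R ^ (2 * Module.finrank ℂ E)) (by fun_prop (disch := measurability)) mh
  have l : ∫⁻ x in sh E, ∫⁻ z, (ball (0 : ℂ) R).indicator 1 z * ((ball 0 R).indicator f (z • x) *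
      ENNReal.ofReal R ^ (2 * Module.finrank ℂ E)) ∂volume ∂μ = 0 := by
    refine (lintegral_congr_ae (h.mono fun x hx => ?_)).trans lintegral_zero
    refine (lintegral_congr_ae (hx.mono fun z hz => ?_)).trans lintegral_zero
    by_cases j : z ∈ ball (0 : ℂ) R
    · simp [indicator, hz (by simpa using j)]
    · simp [j]
  have mv : Measurable fun y : E => volume (ball ((3 / 4 * ‖y‖ : ℝ) : ℂ) (‖y‖ / 4)) := by
    simp only [Complex.volume_ball]; fun_prop
  have : ∫⁻ y, (ball 0 R).indicator f y * volume (ball ((3 / 4 * ‖y‖ : ℝ) : ℂ) (‖y‖ / 4)) ∂μ = 0 := by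
    refine le_zero_iff.1 (le_trans (lintegral_mono fun y => ?_) (e.symm.trans l).le)
    by_cases j : y ∈ ball (0 : E) R
    swap
    · simp [j]
    rw [mem_ball_zero_iff] at j
    rw [mul_assoc, ← lintegral_const_mul _ (by fun_prop), ← setLIntegral_one]
    refine mul_le_mul_right ?_ _
    have sub : ball ((3 / 4 * ‖y‖ : ℝ) : ℂ) (‖y‖ / 4) ⊆ ann (‖y‖ / 2) ‖y‖ := fun z hz => by
      have := abs_norm_sub_norm_le z ((3 / 4 * ‖y‖ : ℝ) : ℂ)
      rw [mem_ball, dist_eq_norm] at hz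
      rw [norm_real, Real.norm_of_nonneg (by positivity), abs_le] at this
      constructor <;> linarith [this.1, this.2]
    refine (lintegral_mono_set sub).trans (setLIntegral_mono' (ann_m _ _) fun z hz => ?_)
    have zR : ‖z‖ < R := hz.2.trans_lt j
    have R0 : 0 < R := (norm_nonneg _).trans_lt zR
    rw [indicator_of_mem (by simpa using zR), Pi.one_apply, one_mul]
    calc (1 : ℝ≥0∞) = ENNReal.ofReal R ^ (2 * Module.finrank ℂ E) *
          (ENNReal.ofReal R ^ (2 * Module.finrank ℂ E))⁻¹ :=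
          (ENNReal.mul_inv_cancel (by simp [R0]) (by simp)).symm
      _ ≤ _ := by rw [← ofReal_norm]; gcongr
  filter_upwards [(lintegral_eq_zero_iff ((hf.indicator measurableSet_ball).mul mv)).1 this, μ.ae_ne 0] with y hy y0 j
  rw [Pi.mul_apply, indicator_of_mem (by simpa using j), Pi.zero_apply, mul_eq_zero] at hy
  exact hy.resolve_right (measure_ball_pos _ _ (by have := norm_pos_iff.2 y0; positivity)).ne'

end Pool.Agent.H99.Ucp
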